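import Pool.Agent.Helper597.KStar

set_option autoImplicit false

namespace Pool.Agent.Results.MP_aa4a89_co.StarBounds

/-- `S` is `K_{1,k}`-isolating: in the graph induced on the complement of the closed neighbourhood
of `S` every vertex has fewer than `k` neighbours. -/
def Isolating {n : ℕ} (G : SimpleGraph (Fin n)) (k : ℕ) (S : Finset (Fin n)) : Prop :=
  ∀ v : Fin n, (v ∉ S ∧ ∀ s ∈ S, ¬ G.Adj s v) →
    {w : Fin n | G.Adj v w ∧ w ∉ S ∧ ∀ s ∈ S, ¬ G.Adj s w}.ncard < k

/-- The isolation number `ι(G, K_{1,k})`: the least size of a `K_{1,k}`-isolating set. -/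
noncomputable def iota {n : ℕ} (G : SimpleGraph (Fin n)) (k : ℕ) : ℕ :=
  sInf {m : ℕ | ∃ S : Finset (Fin n), S.card = m ∧ Isolating G k S}

/-- `c({K_{1,k}}, n)`: the maximum of `ι(G, K_{1,k}) / n` over the connected graphs on `n` vertices. -/
noncomputable def cStar (k n : ℕ) : ℝ :=
  sSup {x : ℝ | ∃ G : SimpleGraph (Fin n), G.Connected ∧ x = (iota G k : ℝ) / (n : ℝ)}

theorem cStar_le (k n : ℕ) (hn : 1 ≤ n) (b : ℝ)
    (h : ∀ G : SimpleGraph (Fin n), G.Connected → (iota G k : ℝ) / (n : ℝ) ≤ b) :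
    cStar k n ≤ b := by
  apply csSup_le
  · have : Nonempty (Fin n) := ⟨⟨0, hn⟩⟩
    exact ⟨_, ⊤, SimpleGraph.connected_top, rfl⟩
  · rintro x ⟨G, hG, rfl⟩
    exact h G hG

theorem le_cStar (k n : ℕ) (G : SimpleGraph (Fin n)) (hG : G.Connected) :
    (iota G k : ℝ) / (n : ℝ) ≤ cStar k n := by
  apply le_csSup
  · have : {x : ℝ | ∃ G : SimpleGraph (Fin n), G.Connected ∧ x = (iota G k : ℝ) / (n : ℝ)} ⊆
        Set.range (fun G : SimpleGraph (Fin n) => (iota G k : ℝ) / (n : ℝ)) := by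
      rintro x ⟨G, _, rfl⟩
      exact ⟨G, rfl⟩
    exact ((Set.finite_range _).subset this).bddAbove
  · exact ⟨G, hG, rfl⟩

theorem iota_le_greedy (k n : ℕ) (G : SimpleGraph (Fin n)) : (k + 1) * iota G k ≤ n := by
  obtain ⟨S, _, hS, hI⟩ := Pool.Agent.Helper597.KStar.iso_greedy G k Finset.univ
  have h1 : iota G k ≤ S.card := Nat.sInf_le ⟨S, rfl, Pool.Agent.Helper597.KStar.r_iso G k S hI⟩
  rw [Finset.card_univ, Fintype.card_fin] at hS
  exact (Nat.mul_le_mul_left _ h1).trans hS

theorem iota_le_two (k n : ℕ) (hn : n ≤ 3 * k + 3) (G : SimpleGraph (Fin n))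
    (hG : G.Connected) : iota G k ≤ 2 := by
  rcases Nat.lt_or_ge n (3 * k + 3) with h | h
  · have h1 := iota_le_greedy k n G
    by_contra h2
    push Not at h2
    have : (k + 1) * 3 ≤ (k + 1) * iota G k := Nat.mul_le_mul_left _ h2
    omega
  · obtain ⟨S, hS, hI⟩ := Pool.Agent.Helper597.KStar.three_blocks G k
      (by rw [Fintype.card_fin]; omega) (Pool.Agent.Helper597.KStar.q_conn G hG)
    have h1 : iota G k ≤ S.card := Nat.sInf_le ⟨S, rfl, Pool.Agent.Helper597.KStar.r_iso G k S hI⟩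
    omega

/-- Let `k ≥ 1` and write `c(k, n)` for `c({K_{1,k}}, n)`.
(1) `c(k, n) ≤ (1 - 1/(6 (k+1)^11)) / (k+1)` for all `n ≥ 2k+3`;
(2) `c(k, n) ≤ 2/n` for all `1 ≤ n ≤ 3k+3`;
(3) `c(k, n) = 1/n` for `k+1 ≤ n ≤ 2k+1`, and `c(k, n) = 0` for `1 ≤ n ≤ k`. -/
theorem result :
    ∀ k : ℕ, 1 ≤ k →
      (∀ n : ℕ, 2 * k + 3 ≤ n →
        cStar k n ≤ (1 - 1 / (6 * ((k : ℝ) + 1) ^ 11)) / ((k : ℝ) + 1)) ∧
      (∀ n : ℕ, 1 ≤ n → n ≤ 3 * k + 3 → cStar k n ≤ 2 / (n : ℝ)) ∧
      (∀ n : ℕ, k + 1 ≤ n → n ≤ 2 * k + 1 → cStar k n = 1 / (n : ℝ)) ∧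
      (∀ n : ℕ, 1 ≤ n → n ≤ k → cStar k n = 0) := by
  intro k hk
  refine ⟨?_, ?_, ?_, ?_⟩
  · intro n hn
    apply cStar_le k n (by omega)
    intro G hG
    have hn0 : (0 : ℝ) < (n : ℝ) := by
      have : 0 < n := by omega
      exact_mod_cast this
    rw [div_le_iff₀ hn0]
    have h := Pool.Agent.Helper597.KStar.iota_bound k n hk hn G hG
    calc (iota G k : ℝ) ≤ (1 - 1 / (6 * ((k : ℝ) + 1) ^ 11)) * ((n : ℝ) / ((k : ℝ) + 1)) := h
      _ = (1 - 1 / (6 * ((k : ℝ) + 1) ^ 11)) / ((k : ℝ) + 1) * (n : ℝ) := by ring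
  · intro n hn1 hn
    apply cStar_le k n hn1
    intro G hG
    have h := iota_le_two k n hn G hG
    apply div_le_div_of_nonneg_right _ (by positivity)
    exact_mod_cast h
  · intro n hn1 hn
    have hn0 : (0 : ℝ) < (n : ℝ) := by
      have : 0 < n := by omega
      exact_mod_cast this
    apply le_antisymm
    · apply cStar_le k n (by omega)
      intro G hG
      apply div_le_div_of_nonneg_right _ hn0.le
      have h1 := iota_le_greedy k n G
      have h2 : iota G k ≤ 1 := by
        by_contra h3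
        push Not at h3
        have : (k + 1) * 2 ≤ (k + 1) * iota G k := Nat.mul_le_mul_left _ h3
        omega
      exact_mod_cast h2
    · have hne : Nonempty (Fin n) := ⟨⟨0, by omega⟩⟩
      refine le_trans ?_ (le_cStar k n ⊤ SimpleGraph.connected_top)
      apply div_le_div_of_nonneg_right _ hn0.le
      have h1 : 1 ≤ iota (⊤ : SimpleGraph (Fin n)) k := by
        rw [Nat.one_le_iff_ne_zero]
        intro h0
        unfold iota at h0
        rw [Nat.sInf_eq_zero] at h0
        rcases h0 with ⟨S, hS, hI⟩ | h0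
        · rw [Finset.card_eq_zero] at hS
          subst hS
          have h2 := hI ⟨0, by omega⟩ (by simp)
          have h3 : {w : Fin n | (⊤ : SimpleGraph (Fin n)).Adj ⟨0, by omega⟩ w ∧
              w ∉ (∅ : Finset (Fin n)) ∧ ∀ s ∈ (∅ : Finset (Fin n)),
                ¬ (⊤ : SimpleGraph (Fin n)).Adj s w} =
              (((Finset.univ : Finset (Fin n)).erase ⟨0, by omega⟩ : Finset (Fin n)) :
                Set (Fin n)) := by
            ext w
            simp [eq_comm]
          rw [h3, Set.ncard_coe_finset, Finset.card_erase_of_mem (Finset.mem_univ _),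
            Finset.card_univ, Fintype.card_fin] at h2
          omega
        · have : (Finset.univ : Finset (Fin n)).card ∈
              {m : ℕ | ∃ S : Finset (Fin n), S.card = m ∧ Isolating (⊤ : SimpleGraph (Fin n)) k S} := by
            refine ⟨Finset.univ, rfl, ?_⟩
            intro v hv
            exact absurd (Finset.mem_univ v) hv.1
          rw [h0] at this
          exact this
      exact_mod_cast h1
  · intro n hn1 hn
    apply le_antisymm
    · apply cStar_le k n hn1
      intro G hG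
      have h1 := iota_le_greedy k n G
      have h2 : iota G k = 0 := by
        by_contra h3
        have : (k + 1) * 1 ≤ (k + 1) * iota G k :=
          Nat.mul_le_mul_left _ (Nat.one_le_iff_ne_zero.2 h3)
        omega
      rw [h2]
      simp
    · have hne : Nonempty (Fin n) := ⟨⟨0, hn1⟩⟩
      refine le_trans ?_ (le_cStar k n ⊤ SimpleGraph.connected_top)
      positivity

end Pool.Agent.Results.MP_aa4a89_co.StarBounds
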